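import Pool.Agent.helper27.CHS.Spec

set_option autoImplicit false

open Finset

namespace Pool.Agent.CHS

open Pool.Agent.SX

theorem CG_log {x : ℝ} (hx : 1 ≤ x) : Real.log x ≤ (x - x⁻¹) / 2 := by
  have h0 : 0 ≤ Real.log x := Real.log_nonneg hx
  have h1 := Real.self_le_sinh_iff.2 h0
  have hx0 : 0 < x := by linarith
  rw [Real.sinh_eq, Real.exp_log hx0, Real.exp_neg, Real.exp_log hx0] at h1
  exact h1

theorem CG_cdiv (x y : ℕ) (hy : 0 < y) : (x : ℝ) / y ≤ (cdiv x y : ℝ) := by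
  have hyR : (0 : ℝ) < y := by exact_mod_cast hy
  rw [div_le_iff₀ hyR]
  have h : x ≤ cdiv x y * y := by
    unfold cdiv
    have h1 := Nat.div_add_mod (x + (y - 1)) y
    have h2 := Nat.mod_lt (x + (y - 1)) hy
    have h3 : (x + (y - 1)) / y * y = y * ((x + (y - 1)) / y) := Nat.mul_comm _ _
    rw [h3]
    omega
  exact_mod_cast h

/-- the bound for one block -/
theorem CG_sig (hSG : SG_stmt) (w : ℝ) (t : ℕ) (hw : 10 ^ 6 ≤ w) (ht : 20 ≤ t) :
    sig (t * w) ((t + 1 : ℕ) * w) ≤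
      ((2 * (t : ℝ) + 1) * 10 ^ 7 + 2 * t * (t + 1)) / (2 * t * (t + 1) * 10 ^ 7) := by
  have htR : (20 : ℝ) ≤ t := by exact_mod_cast ht
  have ht0 : (0 : ℝ) < t := by linarith
  have hw0 : (0 : ℝ) < w := by linarith
  have h1 := hSG (t * w) ((t + 1 : ℕ) * w) (by nlinarith) (by push_cast; nlinarith)
  have h2 : (((t + 1 : ℕ) : ℝ) * w) / (t * w) = ((t : ℝ) + 1) / t := by
    push_cast
    field_simp
  rw [h2] at h1
  have h3 : Real.log (((t : ℝ) + 1) / t) ≤ (2 * (t : ℝ) + 1) / (2 * t * (t + 1)) := by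
    have h4 := CG_log (x := ((t : ℝ) + 1) / t) (by rw [le_div_iff₀ ht0]; linarith)
    refine h4.trans (le_of_eq ?_)
    field_simp
    ring
  have h5 : 2 / ((t : ℝ) * w) ≤ 1 / 10 ^ 7 := by
    rw [div_le_div_iff₀ (by positivity) (by positivity)]
    nlinarith
  have h6 : ((2 * (t : ℝ) + 1) * 10 ^ 7 + 2 * t * (t + 1)) / (2 * t * (t + 1) * 10 ^ 7) =
      (2 * (t : ℝ) + 1) / (2 * t * (t + 1)) + 1 / 10 ^ 7 := by
    field_simp
  rw [h6]
  linarith

theorem CG (hSG : SG_stmt) (hPCM : Pool.Agent.SX.PCM_stmt) : CG_stmt := by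
  refine ⟨?_, ?_⟩
  · intro w t l hw ht hchk
    refine (CG_sig hSG w t hw ht).trans ?_
    have htR : (20 : ℝ) ≤ t := by exact_mod_cast ht
    unfold chkB1 at hchk
    have h1 := Nat.le_of_ble_eq_true hchk
    have h2 : (17592186044416 : ℝ) * ((2 * t + 1) * 10 ^ 7 + 2 * t * (t + 1)) ≤
        l * (2 * t * (t + 1) * 10 ^ 7) := by exact_mod_cast h1
    rw [div_le_div_iff₀ (by positivity) (by positivity)]
    have h3 : (2 : ℝ) ^ 44 = 17592186044416 := by norm_num
    rw [h3]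
    linarith
  · intro w T n a B L U hw ha hchk
    unfold chkG at hchk
    rw [hPCM.2.1] at hchk
    have h1 := Nat.le_of_ble_eq_true hchk
    rw [zero_add] at h1
    have h2 : (10000 : ℝ) * (2 * (dig L B : ℝ) + ∑ j ∈ range n, (fT U B (a + j) : ℝ)) +
        2 * T * 1099511627776 ≤ 20000 * 1099511627776 := by exact_mod_cast h1
    have h3 : ∑ t ∈ Ico a (a + n), (1 + (dig U (B - t - 1) : ℝ) / 2 ^ 40) *
        sig (t * w) ((t + 1 : ℕ) * w) ≤ (∑ j ∈ range n, (fT U B (a + j) : ℝ)) / 2 ^ 40 := by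
      rw [Finset.sum_Ico_eq_sum_range, Nat.add_sub_cancel_left, Finset.sum_div]
      refine Finset.sum_le_sum fun j _ => ?_
      have hat : 20 ≤ a + j := by omega
      have h4 := CG_sig hSG w (a + j) hw hat
      have hpos : 0 < 2 * (a + j) * ((a + j) + 1) * 10 ^ 7 := by positivity
      have h5 := CG_cdiv ((1099511627776 + dig U (B - (a + j) - 1)) *
        ((2 * (a + j) + 1) * 10 ^ 7 + 2 * (a + j) * ((a + j) + 1)))
        (2 * (a + j) * ((a + j) + 1) * 10 ^ 7) hpos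
      have h6 : (cdiv ((1099511627776 + dig U (B - (a + j) - 1)) *
        ((2 * (a + j) + 1) * 10 ^ 7 + 2 * (a + j) * ((a + j) + 1)))
        (2 * (a + j) * ((a + j) + 1) * 10 ^ 7) : ℝ) = (fT U B (a + j) : ℝ) := rfl
      rw [h6] at h5
      rw [le_div_iff₀ (by positivity)]
      have h7 : (1 + (dig U (B - (a + j) - 1) : ℝ) / 2 ^ 40) *
          sig (((a + j : ℕ) : ℝ) * w) (((a + j + 1 : ℕ) : ℝ) * w) * 2 ^ 40 =
          (1099511627776 + (dig U (B - (a + j) - 1) : ℝ)) *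
            sig (((a + j : ℕ) : ℝ) * w) (((a + j + 1 : ℕ) : ℝ) * w) := by
        have h8 : (2 : ℝ) ^ 40 = 1099511627776 := by norm_num
        rw [h8]
        field_simp
      have h9 : (1099511627776 + (dig U (B - (a + j) - 1) : ℝ)) *
          (((2 * ((a + j : ℕ) : ℝ) + 1) * 10 ^ 7 + 2 * ((a + j : ℕ) : ℝ) * (((a + j : ℕ) : ℝ) + 1)) /
            (2 * ((a + j : ℕ) : ℝ) * (((a + j : ℕ) : ℝ) + 1) * 10 ^ 7)) ≤ (fT U B (a + j) : ℝ) := by
        refine le_trans (le_of_eq ?_) h5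
        push_cast
        ring
      rw [h7]
      exact (mul_le_mul_of_nonneg_left h4 (by positivity)).trans h9
    have h8 : (2 : ℝ) ^ 40 = 1099511627776 := by norm_num
    rw [h8] at h3 ⊢
    have h9 : (∑ j ∈ range n, (fT U B (a + j) : ℝ)) / 1099511627776 * 1099511627776 =
        ∑ j ∈ range n, (fT U B (a + j) : ℝ) := by field_simp
    have h10 : (dig L B : ℝ) / 1099511627776 * 1099511627776 = (dig L B : ℝ) := by field_simp
    linarith

end Pool.Agent.CHS
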